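import Pool.Agent.W289.ZS.Stm

/-!
ZS-T1: basic properties of `Solv`.
-/

set_option autoImplicit false

namespace Pool.Agent.W440.ZS

open Finset W289.ZS

universe u v

section

variable {ι : Type u} {V : Type v} [Fintype ι] [DecidableEq ι] [DecidableEq V]
variable {D : Dat ι V} {A B : Finset ι} {s s' s'' : (ι → V) → ℕ} {w : ι → V} {t t' : ℕ}

theorem Reach.trans (h1 : Reach D A s s') (h2 : Reach D A s' s'') : Reach D A s s'' := by
  induction h2 with
  | refl => exact h1
  | step r v i _ hi hd ih => exact Reach.step s r v i ih hi hd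

theorem Reach.add_right (h : Reach D A s s') (r : (ι → V) → ℕ) :
    Reach D A (s + r) (s' + r) := by
  induction h with
  | refl => exact Reach.refl _
  | step r' v i _ hi hd ih =>
    rw [add_right_comm] at ih ⊢
    exact Reach.step _ _ v i ih hi hd

theorem Reach.mono (hAB : A ⊆ B) (h : Reach D A s s') : Reach D B s s' := by
  induction h with
  | refl => exact Reach.refl _
  | step r' v i _ hi hd ih => exact Reach.step _ _ v i ih (hAB hi) hd

theorem Solv.self (s : (ι → V) → ℕ) (w : ι → V) : Solv D A s w (s w) := by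
  refine ⟨fun v => if v = w then 0 else s v, ?_⟩
  have h : (fun v => if v = w then 0 else s v) + Pi.single w (s w) = s := by
    funext v
    rw [Pi.add_apply]
    by_cases hv : v = w
    · subst hv
      rw [if_pos rfl, Pi.single_eq_same, Nat.zero_add]
    · rw [if_neg hv, Pi.single_eq_of_ne hv, Nat.add_zero]
  rw [h]
  exact Reach.refl _

theorem Solv.add (h : Solv D A s w t) (h' : Solv D A s' w t') :
    Solv D A (s + s') w (t + t') := by
  obtain ⟨r, h1⟩ := h
  obtain ⟨r', h2⟩ := h'
  refine ⟨r + r', ?_⟩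
  have h3 := Reach.add_right h1 s'
  have h4 := Reach.add_right h2 (r + Pi.single w t)
  rw [add_comm s'] at h4
  have h5 := Reach.trans h3 h4
  have h6 : r' + Pi.single w t' + (r + Pi.single w t) = r + r' + Pi.single w (t + t') := by
    rw [Pi.single_add]
    abel
  rw [h6] at h5
  exact h5

theorem Solv.mono (h : Solv D A s w t) (hs : ∀ v, s v ≤ s' v) : Solv D A s' w t := by
  obtain ⟨r, h1⟩ := h
  refine ⟨r + (fun v => s' v - s v), ?_⟩
  have h2 := Reach.add_right h1 (fun v => s' v - s v)
  have h3 : s + (fun v => s' v - s v) = s' := by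
    funext v
    rw [Pi.add_apply]
    have := hs v
    omega
  rw [h3, add_right_comm] at h2
  exact h2

theorem Solv.le (h : Solv D A s w t) (ht : t' ≤ t) : Solv D A s w t' := by
  obtain ⟨r, h1⟩ := h
  refine ⟨r + Pi.single w (t - t'), ?_⟩
  rw [add_assoc, ← Pi.single_add, Nat.sub_add_cancel ht]
  exact h1

theorem reach_down {i : ι} (hi : i ∈ A) (hd : 0 < D.dep i (w i)) :
    ∀ (t : ℕ) (r : (ι → V) → ℕ), Reach D A s (r + Pi.single w (D.p i * t)) →
      Reach D A s (r + Pi.single (D.down i w) t)
  | 0, r, h => by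
    rw [Nat.mul_zero, Pi.single_zero] at h
    rw [Pi.single_zero]
    exact h
  | t + 1, r, h => by
    have h1 : r + Pi.single w (D.p i * (t + 1)) =
        r + Pi.single w (D.p i * t) + Pi.single w (D.p i) := by
      rw [Nat.mul_succ, Pi.single_add, add_assoc]
    rw [h1] at h
    have h2 := Reach.step s _ w i h hi hd
    rw [add_right_comm] at h2
    have h3 := reach_down hi hd t _ h2
    rw [add_assoc, ← Pi.single_add, Nat.add_comm 1 t] at h3
    exact h3

end

theorem basic : TaskBasic.{u, v} := by
  intro ι V _ _ _ D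
  refine ⟨fun A s w => Solv.self s w, fun A s s' w t t' h h' => Solv.add h h',
    fun A s s' w t h hs => Solv.mono h hs, fun A s w t t' h ht => Solv.le h ht, ?_, ?_, ?_⟩
  · rintro A s s' w t h ⟨r, h1⟩
    exact ⟨r, Reach.trans h h1⟩
  · rintro A B s w t hAB ⟨r, h1⟩
    exact ⟨r, Reach.mono hAB h1⟩
  · rintro A s w i t hi hd ⟨r, h1⟩
    exact ⟨r, reach_down hi hd t r h1⟩

end Pool.Agent.W440.ZS
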